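import Pool.Agent.H257R2.WT.Red

/-!
# Total weighted tardiness with processing times at most 13 is NP-hard

So `1 || ∑ w_j T_j` is not fixed-parameter tractable in `p_max` unless `P = NP`.

Reduction from 3SAT.  It uses the construction of helper741 for `1 | r_j, p_j ≤ 13 | ∑ U_j`
(`Pool.Agent.H741R2.LJ`): gaps between rigid jobs of length 1, two classes of jobs (lengths 10, 13
and 7, 5) with nested windows which copy the bits of an assignment through `s` blocks of `2 m`
gaps, and a job of length 2 for each clause.  Here there are no release dates and no deadlines; they
are simulated by weights of different orders of magnitude.

* A job of length `p` has weight `p W + ω`, with `ω` much smaller than `W`; `∑ p_j C_j` over all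
  jobs is at least its value for a schedule without idle time, so that at the scale of `W` the cost
  is least iff there is no idle time, the rigid jobs (with a huge weight) are exactly on time, and
  each other job is completed at or after its due date, which therefore works as a release date.
* The small weights `ω` of a class of jobs are proportional to the number of windows containing
  the home gap of the job; a double counting shows that `∑ ω_j C_j` is at least its value for the
  identity assignment of jobs to gaps, with equality iff every job is in its window.
* The two classes and the clause jobs are at three scales.  After each block there is a long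
  run of rigid jobs; hence a clause job after its block would cost too much.
* Fillers of length 1 fill the rest.
-/

namespace Pool.Agent.Results.MP_9ce56d_lc.BoundedLengthsNPHard

open Pool.Agent.NPC Pool.Agent.H257R2.WT Pool.Agent.H633R2

/-- **`1 || ∑ w_j T_j` is NP-hard even if all processing times are at most `13`** (so for every
bound `c ≥ 13`); in particular, a polynomial-time algorithm for processing times at most `c`
implies `P = NP`, and if `1 || ∑ w_j T_j` is fixed-parameter tractable with respect to the maximum
processing time, then `P = NP`. -/
theorem result :
    (∀ c : ℕ, 13 ≤ c → NPHardP (TardyLe c)) ∧
    (∀ c : ℕ, 13 ≤ c → InPP (TardyLe c) → ∀ L : Set (List Bool), InNP L → InP L) ∧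
    (IsFpt pmax Tardy → ∀ L : Set (List Bool), InNP L → InP L) :=
  ⟨fun _ hc => (hardI_tardy hc).toNPHardP,
    fun _ hc h L hL => InP.of_reduces ((hardI_tardy hc).toNPHardP L hL) h, fpt_collapse⟩

end Pool.Agent.Results.MP_9ce56d_lc.BoundedLengthsNPHard
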